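import Pool.Agent.Y678.FX.Rel

/-!
# Automorphisms of `P(ω₁)/Fin` without nontrivial fixed points

In ZFC: if an automorphism of `P(ω₁)/Fin` has no nontrivial fixed point then there is an
uncountable family of pairwise disjoint countable sets on each of which the automorphism is not
trivial; in particular it is not trivial on any cocountable set. The same holds for `P(Λ)/Fin` and
inside each uncountable set `E` such that `B \ E` is countable, where `B` represents the image of
the class of `E`, if each inaccessible cardinal `c ≤ #E` has the tree property. For arbitrary `Λ`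
the automorphism is not trivial on any uncountable set `C` such that one of the sets `B \ C`,
`C \ B` is countable, where `B` represents the image of the class of `C`.

If the automorphism is induced on such a set `C` by a function `e`, then `e` is injective up to
finitely many points and only countably many points of `C` have an orbit under `e` which leaves
`C`. So there is an infinite orbit inside `C`, or there are infinitely many finite ones; in both
cases there is a countable infinite `A ⊆ C` such that `e '' A` and `A` differ by finitely many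
points. For the countable sets the theorem of `Pool.Agent.Y678.AI` is used: the restriction of the
automorphism to `P(E)/Fin` is an isomorphism with `P(B)/Fin`, and isomorphisms which are trivial
on all countable sets are trivial.
-/

set_option autoImplicit false

universe u

namespace Pool.Agent.Results.MP_913d7c_lc.UncountablyManyCountableSets

open Cardinal Pool.Agent.W869.AV Pool.Agent.Y678.AU

/-- The automorphism has a nontrivial fixed point: it fixes the class of an infinite set with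
infinite complement. -/
def HasFixedPoint {Λ : Type u} (φ : Quo ℵ₀ le_rfl Λ ≃o Quo ℵ₀ le_rfl Λ) : Prop :=
  ∃ A : Set Λ, A.Infinite ∧ Aᶜ.Infinite ∧ φ (cls le_rfl A) = cls le_rfl A

theorem hasFixedPoint {Λ : Type u} {φ : Quo ℵ₀ le_rfl Λ ≃o Quo ℵ₀ le_rfl Λ} {ρ : Aut ℵ₀ Λ}
    (hρ : ∀ A, φ (cls le_rfl A) = cls le_rfl (ρ.F A)) {C B : Set Λ}
    (hB : φ (cls le_rfl C) = cls le_rfl B) (hC : ¬ C.Countable)
    (hBC : (B \ C).Countable ∨ (C \ B).Countable) (h : Tr ρ C) : HasFixedPoint φ := by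
  obtain ⟨e, he⟩ := h
  rw [hρ, cls_eq_iff] at hB
  have h1 : (ρ.F C \ B).Finite := Pool.Agent.Y678.FX.sm_iff.1 hB.1
  have h2 : (B \ ρ.F C).Finite := Pool.Agent.Y678.FX.sm_iff.1 hB.2
  obtain ⟨A, hA1, hA2, hA3, hA4⟩ : ∃ A : Set Λ, A.Infinite ∧ A.Countable ∧
      Al ℵ₀ (ρ.F A) A ∧ Al ℵ₀ A (ρ.F A) := by
    rcases hBC with h3 | h3
    · obtain ⟨A, -, hA⟩ := Pool.Agent.Y678.FX.fixed_of_good he hC
        ((h1.countable.union h3).mono (by
          rintro x ⟨hx, hx'⟩
          by_cases h4 : x ∈ B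
          · exact Or.inr ⟨h4, hx'⟩
          · exact Or.inl ⟨hx, h4⟩))
      exact ⟨A, hA⟩
    · exact Pool.Agent.Y678.FX.fixed_of_good' he hC
        ((h2.countable.union h3).mono (by
          rintro x ⟨hx, hx'⟩
          by_cases h4 : x ∈ B
          · exact Or.inl ⟨h4, hx'⟩
          · exact Or.inr ⟨hx, h4⟩))
  refine ⟨A, hA1, fun h5 => hC ((hA2.union h5.countable).mono fun x _ => ?_), ?_⟩
  · by_cases h6 : x ∈ A
    · exact Or.inl h6
    · exact Or.inr h6
  · rw [hρ, cls_eq_iff]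
    exact ⟨hA3, hA4⟩

theorem exists_family {Λ : Type u} (φ : Quo ℵ₀ le_rfl Λ ≃o Quo ℵ₀ le_rfl Λ) (E B : Set Λ)
    (hB : φ (cls le_rfl E) = cls le_rfl B) (hE : ¬ E.Countable) (hBE : (B \ E).Countable)
    (hin : ∀ c : Cardinal.{u}, ℵ₀ < c → c ≤ #E → c.IsInaccessible → TreeProp c)
    (hφ : ¬ HasFixedPoint φ) :
    ∃ S : Set (Set Λ), ¬ S.Countable ∧ S.PairwiseDisjoint id ∧
      ∀ C ∈ S, C ⊆ E ∧ C.Countable ∧ ¬ IsTrivialOn φ C := by
  obtain ⟨ρ, hρ⟩ := exists_aut φ
  obtain ⟨S, hS⟩ := zorn_subset {S : Set (Set Λ) | S.PairwiseDisjoint id ∧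
    ∀ C ∈ S, C ⊆ E ∧ C.Countable ∧ ¬ IsTrivialOn φ C} (by
      intro c hc hch
      refine ⟨⋃₀ c, ⟨?_, ?_⟩, fun s hs => Set.subset_sUnion_of_mem hs⟩
      · rintro A ⟨s, hs, hA⟩ A' ⟨s', hs', hA'⟩ hne
        rcases hch.total hs hs' with h1 | h1
        · exact (hc hs').1 (h1 hA) hA' hne
        · exact (hc hs).1 hA (h1 hA') hne
      · rintro C ⟨s, hs, hC⟩
        exact (hc hs).2 C hC)
  refine ⟨S, fun hcount => ?_, hS.prop.1, hS.prop.2⟩
  have hD : (⋃₀ S).Countable := hcount.sUnion fun C hC => (hS.prop.2 C hC).2.1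
  have hE' : ¬ (E \ ⋃₀ S).Countable := fun h1 => hE ((h1.union hD).mono fun x hx => by
    by_cases h2 : x ∈ ⋃₀ S
    · exact Or.inr h2
    · exact Or.inl ⟨hx, h2⟩)
  by_cases hall : ∀ C ⊆ E \ ⋃₀ S, #C = ℵ₀ → IsTrivialOn φ C
  · have htr : Tr ρ (E \ ⋃₀ S) := Pool.Agent.Y678.FX.tr_rel hρ hall fun c hc hc' =>
      hin c hc (hc'.trans (Cardinal.mk_le_mk_of_subset Set.sdiff_subset))
    refine hφ (hasFixedPoint hρ (hρ _) hE' (Or.inl ?_) htr)
    have h1 : (ρ.F (E \ ⋃₀ S) \ ρ.F E).Finite := Pool.Agent.Y678.FX.sm_iff.1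
      ((ρ.le_iff _ _).1 (Al.of_subset Set.sdiff_subset))
    rw [hρ, cls_eq_iff] at hB
    have h2 : (ρ.F E \ B).Finite := Pool.Agent.Y678.FX.sm_iff.1 hB.1
    refine (((h1.countable.union h2.countable).union hBE).union hD).mono ?_
    rintro x ⟨hx, hx'⟩
    by_cases h3 : x ∈ ⋃₀ S
    · exact Or.inr h3
    · have h4 : x ∉ E := fun h4 => hx' ⟨h4, h3⟩
      by_cases h5 : x ∈ ρ.F E
      · by_cases h6 : x ∈ B
        · exact Or.inl (Or.inr ⟨h6, h4⟩)
        · exact Or.inl (Or.inl (Or.inr ⟨h5, h6⟩))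
      · exact Or.inl (Or.inl (Or.inl ⟨hx, h5⟩))
  · push Not at hall
    obtain ⟨C, hC, hCc, hn⟩ := hall
    have hmem : insert C S ∈ {S : Set (Set Λ) | S.PairwiseDisjoint id ∧
        ∀ C ∈ S, C ⊆ E ∧ C.Countable ∧ ¬ IsTrivialOn φ C} := by
      refine ⟨hS.prop.1.insert fun A hA _ => ?_, ?_⟩
      · show Disjoint C A
        rw [Set.disjoint_left]
        intro x hx hx'
        exact (hC hx).2 ⟨A, hA, hx'⟩
      · rintro A (rfl | hA)
        · exact ⟨fun x hx => (hC hx).1, Cardinal.le_aleph0_iff_set_countable.1 hCc.le, hn⟩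
        · exact hS.prop.2 A hA
    have hCS : C ∈ S := hS.le_of_ge hmem (Set.subset_insert C S) (Set.mem_insert C S)
    have hne : C.Nonempty := by
      rw [← Set.nonempty_coe_sort, ← Cardinal.mk_ne_zero_iff, hCc]
      exact Cardinal.aleph0_ne_zero
    obtain ⟨x, hx⟩ := hne
    exact (hC hx).2 ⟨C, hCS, hx⟩

theorem result :
    -- automorphisms of `P(ω₁)/Fin` without nontrivial fixed points
    (∀ φ : Quo ℵ₀ le_rfl (Ordinal.omega 1).ToType ≃o Quo ℵ₀ le_rfl (Ordinal.omega 1).ToType,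
      ¬ HasFixedPoint φ →
      ∃ S : Set (Set (Ordinal.omega 1).ToType), ¬ S.Countable ∧ S.PairwiseDisjoint id ∧
        ∀ C ∈ S, C.Countable ∧ ¬ IsTrivialOn φ C) ∧
    -- the same for other sets
    (∀ (Λ : Type u) (φ : Quo ℵ₀ le_rfl Λ ≃o Quo ℵ₀ le_rfl Λ), ¬ HasFixedPoint φ →
      ∀ E B : Set Λ, φ (cls le_rfl E) = cls le_rfl B → ¬ E.Countable → (B \ E).Countable →
      (∀ c : Cardinal.{u}, ℵ₀ < c → c ≤ #E → c.IsInaccessible → TreeProp c) →
      ∃ S : Set (Set Λ), ¬ S.Countable ∧ S.PairwiseDisjoint id ∧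
        ∀ C ∈ S, C ⊆ E ∧ C.Countable ∧ ¬ IsTrivialOn φ C) ∧
    -- for an arbitrary set `Λ`: a criterion for fixed points
    (∀ (Λ : Type u) (φ : Quo ℵ₀ le_rfl Λ ≃o Quo ℵ₀ le_rfl Λ) (C B : Set Λ),
      φ (cls le_rfl C) = cls le_rfl B → ¬ C.Countable → (B \ C).Countable ∨ (C \ B).Countable →
      IsTrivialOn φ C → HasFixedPoint φ) := by
  refine ⟨fun φ hφ => ?_, fun Λ φ hφ E B hB hE hBE hin => exists_family φ E B hB hE hBE hin hφ,
    fun Λ φ C B hB hC hBC h => ?_⟩
  · have hω : ¬ (Set.univ : Set (Ordinal.omega 1).ToType).Countable := by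
      rw [← Cardinal.le_aleph0_iff_set_countable, Cardinal.mk_univ, Cardinal.mk_toType,
        Ordinal.card_omega, not_le]
      exact Cardinal.aleph0_lt_aleph_one
    obtain ⟨B, hB⟩ := exists_cls (φ (cls le_rfl Set.univ))
    obtain ⟨S, hS1, hS2, hS3⟩ := exists_family φ Set.univ B hB.symm hω (by simp)
      (fun c hc hc' hin => by
        rw [Cardinal.mk_univ, Cardinal.mk_toType, Ordinal.card_omega] at hc'
        have h1 : (2 : Cardinal) ^ ℵ₀ < c := hin.isStrongPrelimit hc
        exact absurd (h1.trans_le hc') (not_lt.2 (by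
          rw [← Cardinal.succ_aleph0]
          exact Order.succ_le_of_lt (Cardinal.cantor ℵ₀)))) hφ
    exact ⟨S, hS1, hS2, fun C hC => (hS3 C hC).2⟩
  · obtain ⟨ρ, hρ⟩ := exists_aut φ
    exact hasFixedPoint hρ hB hC hBC (tr_of_trivialOn hρ h)

end Pool.Agent.Results.MP_913d7c_lc.UncountablyManyCountableSets
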